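import Mathlib
import Pool.Agent.Y682.YQ.BsdB
import Pool.Agent.Y687.MQ.Fin
import Pool.Agent.V11161.BH.ParK

/-!
# The Beilinson–Bloch conjecture in codimension one for products of twists of `X_0(14)` over the
# multiquadratic fields of clusters of primes

`E_M : y² = x³ + 5805 M² x - 285714 M³` is the quadratic twist by `M` of the modular curve `X_0(14)`,
without complex multiplication. Let `S` be ANY finite set of members `M` of the class `Adm` (squarefree,
`1` modulo `4`, squares modulo `7`, prime to `3`, all prime divisors split completely in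
`ℚ(i, √2, √-7)` or inert in `ℚ(√2)` and in `ℚ(√-7)`) for which `E_M(ℚ)` is finite and `Ш(E_M)[2] = 0`, and
let `X = ∏_{M ∈ S} E_M`, an abelian variety of dimension `#S`. For an abelian variety `CH¹(X)_0` is the
group of the points of the dual variety, tensored with `ℚ`; its dimension is the sum of the ranks of the
`E_M(K)`.

Let `P = ∏_{M ∈ S} |M|` and let `c` be a class modulo `168 P`, prime to the modulus, of primes that are
`3` modulo `8` and not squares modulo `7`, which is a square modulo all the prime divisors `l = 1` modulo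
`8` of the `M ∈ S`. For all `k` and `η > 0` there are `z`, `d`, `C`, `X₀` and `ρ, b > 0`, which depend only
on `k` and `η`, such that for all `S`, `c` and every `Y ≥ X₀` there are frequencies `θ_1, …, θ_d` with the
following property. Let `B` be the Bohr set of all integers `|h| ≤ Y` with `|exp (2 π i h θ_j) - 1| ≤ ρ`
for all `j`; it has at least `b Y` elements. Put `W = 168 P z!`. For at least `(1 - η) |B| ^ k` of the
vectors `(h_1, …, h_k)` in `B ^ k` (the entries being distinct and not zero) and for arbitrarily large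
`N`, the same for all these vectors, there are at least `N / (log N) ^ C` primes `p ≤ N` of the class such
that `p + W h_1, …, p + W h_k` are primes of the class and, for the field
`K = ℚ(√-p, √-(p + W h_1), …, √-(p + W h_k))` of degree `2 ^ (k + 1)`, the conjecture holds for `X` over
`K` and `i = 1`: the `L`-function of `H¹(X)` is entire, and its order at `s = 1` and the dimension of
`CH¹(X)_0` are zero.

The theorem on single twists and the comparison with the field are in the starting library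
(`Pool.Agent.Y687.MQ.WB_D`, `Pool.Agent.Y687.MQ.mq_zero`, `Pool.Agent.Y682.YQ.zer_iff`). New here: the
Rédei type matrix of `M` does not change on multiplication by the products of the primes of the cluster
(`Pool.Agent.V11161.BH.det_mul_DD`), and the configurations of the primes
(`Pool.Agent.V11161.BH.bohrAPU`).
-/

set_option autoImplicit false

open Filter NumberField IsDedekindDomain

namespace Pool.Agent.Results.MP_0b9e0b_ag.ClustersOfTwists

open Pool.Agent.TH841.SH.D (Sha)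

/-! ### The class of the twists -/

/-- primes which split completely in `ℚ(i, √2, √-7)` -/
def Split (p : ℕ) : Prop := p.Prime ∧ p % 8 = 1 ∧ (p % 7 = 1 ∨ p % 7 = 2 ∨ p % 7 = 4)

/-- primes inert in `ℚ(√2)` and in `ℚ(√-7)` -/
def Inert (q : ℕ) : Prop :=
  q.Prime ∧ (q % 8 = 3 ∨ q % 8 = 5) ∧ (q % 7 = 3 ∨ q % 7 = 5 ∨ q % 7 = 6)

/-- the class -/
def Adm (M : ℤ) : Prop := Squarefree M ∧ M % 4 = 1 ∧ (M % 7 = 1 ∨ M % 7 = 2 ∨ M % 7 = 4) ∧
  ∀ p : ℕ, p.Prime → (p : ℤ) ∣ M → p ≠ 3 ∧ (Split p ∨ Inert p)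

/-- the global minimal equation of `E_M` over `ℚ`, for `M = 1` modulo `4` -/
def minimal (M : ℤ) : WeierstrassCurve ℚ :=
  (⟨1, (M - 1) / 4, 1, (9 * M ^ 2 - 1) / 2, -((23 * M ^ 3 + 1) / 4)⟩ : WeierstrassCurve ℤ).map
    (Int.castRingHom ℚ)

/-- the group `E_M(ℚ)` is finite and `Ш(E_M)` has no element of order two -/
def RankZeroShaTwo (M : ℤ) : Prop :=
  Finite (minimal M).toAffine.Point ∧ ∀ x : Sha (minimal M), 2 • x = 0 → x = 0

/-! ### The conjecture for `∏_{M ∈ S} E_M` over `K`, in codimension one -/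

/-- the curve `E_M : y² = x³ + 5805 M² x - 285714 M³` over the field `K` -/
def E (K : Type) [Field K] (M : ℤ) : WeierstrassCurve K :=
  { a₁ := 0, a₂ := 0, a₃ := 0, a₄ := ((5805 * M ^ 2 : ℤ) : K), a₆ := ((-285714 * M ^ 3 : ℤ) : K) }

/-- the number `q_v` of elements of the residue field of a finite place `v` of `K` -/
noncomputable def qv (K : Type) [Field K] (v : HeightOneSpectrum (𝓞 K)) : ℕ :=
  Nat.card (𝓞 K ⧸ v.asIdeal)

/-- `a_v = q_v + 1 - #E_M(k_v)`, that is `q_v` minus the number of affine points -/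
noncomputable def av (K : Type) [Field K] (M : ℤ) (v : HeightOneSpectrum (𝓞 K)) : ℤ :=
  (qv K v : ℤ) - Nat.card {z : (𝓞 K ⧸ v.asIdeal) × (𝓞 K ⧸ v.asIdeal) //
    z.2 ^ 2 = z.1 ^ 3 + ((5805 * M ^ 2 : ℤ) : 𝓞 K ⧸ v.asIdeal) * z.1 +
      ((-285714 * M ^ 3 : ℤ) : 𝓞 K ⧸ v.asIdeal)}

open Classical in
/-- the Euler factor of `E_M` at the place `v` of `K`; it is left out if `v` divides
`2 (4 (5805 M²)³ + 27 (285714 M³)²) D` -/
noncomputable def factor (K : Type) [Field K] (D M : ℤ) (s : ℂ) (v : HeightOneSpectrum (𝓞 K)) : ℂ :=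
  if ((2 * (4 * (5805 * M ^ 2) ^ 3 + 27 * (-285714 * M ^ 3) ^ 2) * D : ℤ) : 𝓞 K) ∈ v.asIdeal then 1
  else (1 - (av K M v : ℂ) * (qv K v : ℂ) ^ (-s) + (qv K v : ℂ) ^ (1 - 2 * s))⁻¹

/-- `F` is entire and is, for `Re s > 3/2`, the `L`-function of `H¹` of `∏_{M ∈ S} E_M` over `K` without
finitely many Euler factors (those of `E_M` at the places that divide
`2 (4 (5805 M²)³ + 27 (285714 M³)²) D`) -/
def IsL (K : Type) [Field K] (D : ℤ) (S : Finset ℤ) (F : ℂ → ℂ) : Prop :=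
  Differentiable ℂ F ∧ ∀ s : ℂ, (3 : ℝ) / 2 < s.re →
    HasProd (fun v : HeightOneSpectrum (𝓞 K) => ∏ M ∈ S, factor K D M s v) (F s)

open Classical in
/-- the dimension of `CH¹(X)_0` for `X = ∏_{M ∈ S} E_M` over `K`: the sum of the ranks of the `E_M(K)` -/
noncomputable def dimension (K : Type) [Field K] (S : Finset ℤ) : ℕ :=
  ∑ M ∈ S, Module.finrank ℤ (E K M).toAffine.Point

open Classical in
/-- The conjecture for `X = ∏_{M ∈ S} E_M` over `K` and `i = 1`, with order and dimension zero: the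
groups `E_M(K)` are finite, the `L`-function (without finitely many Euler factors, which do not change
the order at `s = 1`) is entire, and its order of vanishing and the dimension of `CH¹(X)_0` are zero. -/
def Holds (K : Type) [Field K] (D : ℤ) (S : Finset ℤ) : Prop :=
  (∀ M ∈ S, Finite (E K M).toAffine.Point) ∧ dimension K S = 0 ∧ (∃ F : ℂ → ℂ, IsL K D S F) ∧
    ∀ F : ℂ → ℂ, IsL K D S F → F 1 ≠ 0 ∧ analyticOrderAt F 1 = dimension K S

/-! ### The clusters -/

/-- `x* = ± x`, congruent to `1` modulo `4` for odd `x` -/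
def star (x : ℤ) : ℤ := if x % 4 = 1 then x else -x

/-- `K = ℚ(√d_1, …, √d_n)` -/
def IsMultiquadratic {n : ℕ} (d : Fin n → ℤ) (K : Type) [Field K] [NumberField K] : Prop :=
  ∃ x : Fin n → K, (∀ i, x i ^ 2 = (d i : K)) ∧ IntermediateField.adjoin ℚ (Set.range x) = ⊤

/-- the numbers `p*, (p + W h_1)*, …, (p + W h_k)*` -/
def discs {k : ℕ} (W : ℕ) (h : Fin k → ℤ) (p : ℕ) : Fin (k + 1) → ℤ :=
  fun i => star ((Fin.cons (p : ℤ) fun i => (p : ℤ) + W * h i : Fin (k + 1) → ℤ) i)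

/-- the primes `p ≤ N` of the class of `c` modulo `m` for which all the `p + W h_i` are primes of the
class and the conjecture holds, with order and dimension zero, for `∏_{M ∈ S} E_M` over the field
`K = ℚ(√p*, √(p + W h_1)*, …, √(p + W h_k)*)`, which has degree `2 ^ (k + 1)` -/
def goodPrimes {k : ℕ} (S : Finset ℤ) (m c W : ℕ) (h : Fin k → ℤ) (N : ℕ) : Set ℕ :=
  {p : ℕ | p ≤ N ∧ p.Prime ∧ p % m = c % m ∧
    (∀ i, ∃ q : ℕ, q.Prime ∧ q % m = c % m ∧ (q : ℤ) = p + W * h i) ∧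
    ∀ (K : Type) [Field K] [NumberField K], IsMultiquadratic (discs W h p) K →
      Module.finrank ℚ K = 2 ^ (k + 1) ∧ Holds K (∏ i, discs W h p i) S}

/-- the Bohr set of the frequencies `θ_j`, of radius `ρ` and width `X` -/
def bohrSet {d : ℕ} (θ : Fin d → ℝ) (ρ : ℝ) (X : ℕ) : Set ℤ :=
  {h : ℤ | |h| ≤ X ∧ ∀ j, ‖Complex.exp (2 * Real.pi * Complex.I * (h * θ j)) - 1‖ ≤ ρ}

/-! ### Proofs -/

open Pool.Agent.V11161.BH

theorem isL_unique {K : Type} [Field K] {D : ℤ} {S : Finset ℤ} {F G : ℂ → ℂ} (hF : IsL K D S F)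
    (hG : IsL K D S G) : F = G := by
  have hF' : AnalyticOnNhd ℂ F Set.univ := fun z _ => hF.1.analyticAt z
  have hG' : AnalyticOnNhd ℂ G Set.univ := fun z _ => hG.1.analyticAt z
  refine hF'.eq_of_eventuallyEq hG' (z₀ := 2) ?_
  have hmem : {s : ℂ | (3 : ℝ) / 2 < s.re} ∈ nhds (2 : ℂ) :=
    (isOpen_lt continuous_const Complex.continuous_re).mem_nhds (by
      show (3 : ℝ) / 2 < (2 : ℂ).re
      norm_num)
  filter_upwards [hmem] with s hs
  exact (hF.2 s hs).unique (hG.2 s hs)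

theorem det_iff {M : ℤ} (hM : Adm M) : RankZeroShaTwo M ↔ (Pool.Agent.Y687.MQ.matD M).det ≠ 0 := by
  rw [← Pool.Agent.Y682.YQ.zer_iff (D := M) hM]
  unfold RankZeroShaTwo Pool.Agent.Y682.YQ.Zer
  refine and_congr Iff.rfl (forall_congr' fun x => ?_)
  rw [two_nsmul]
  rfl

theorem det_inst {n : Type} [Fintype n] (d₁ d₂ : DecidableEq n) (A : Matrix n n (ZMod 2)) :
    @Matrix.det n d₁ _ (ZMod 2) _ A = @Matrix.det n d₂ _ (ZMod 2) _ A := by
  rw [Subsingleton.elim d₁ d₂]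

open Classical in
/-- the determinant in terms of the entries -/
theorem det_R (D : ℤ) : (Pool.Agent.Y687.MQ.matD D).det = (Matrix.of fun i j : spl D =>
    ent (fun i => if 8 ∣ Pool.Agent.Y687.NN 1 i then 0 else 1) D i j).det := by
  have e : Pool.Agent.Y687.MQ.matD D = (Matrix.of fun i j : spl D =>
      ent (fun i => if 8 ∣ Pool.Agent.Y687.NN 1 i then 0 else 1) D i j) := by
    ext i j
    unfold Pool.Agent.Y687.MQ.matD ent
    simp only [Matrix.of_apply]
    by_cases hij : i = j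
    · rw [if_pos hij, if_pos (congrArg Subtype.val hij)]
    · rw [if_neg hij, if_neg (fun h => hij (Subtype.ext h))]
  rw [e]
  exact det_inst _ _ _

theorem classPrimes_sub {k : ℕ} {S : Finset ℤ} (hS : ∀ M ∈ S, Adm M ∧ RankZeroShaTwo M)
    {c W : ℕ} (hcop : c.Coprime (168 * ∏ M ∈ S, M.natAbs)) (hc8 : c % 8 = 3)
    (hc7 : c % 7 = 3 ∨ c % 7 = 5 ∨ c % 7 = 6)
    (hsq : ∀ M ∈ S, ∀ l : ℕ, l.Prime → (l : ℤ) ∣ M → l % 8 = 1 → IsSquare (c : ZMod l))
    {h : Fin k → ℤ} (hh0 : ∀ i, h i ≠ 0) (hinj : Function.Injective h) (hW : 0 < W) (N : ℕ) :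
    classPrimes (168 * ∏ M ∈ S, M.natAbs) c W h N ⊆
      goodPrimes S (168 * ∏ M ∈ S, M.natAbs) c W h N := by
  classical
  intro p hp
  refine ⟨hp.1, hp.2.1, hp.2.2.1, hp.2.2.2, fun K _ _ hK => ?_⟩
  obtain ⟨x, hx, hadj⟩ := hK
  obtain ⟨hdeg, hfield⟩ := cluster_field (Or.inl hc8) hc7 hh0 hinj hW hp K x hx hadj
  have hWB : ∀ M ∈ S, ∀ J, Pool.Agent.Y687.WB (M * cprod W h p J) := by
    intro M hM J
    have hdvd : M.natAbs ∣ ∏ M ∈ S, M.natAbs := Finset.dvd_prod_of_mem _ hM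
    rcases J.eq_empty_or_nonempty with rfl | hJ
    · have e : cprod W h p ∅ = 1 := Finset.prod_empty
      rw [e, mul_one]
      exact Pool.Agent.Y687.MQ.WB_D (hS M hM).1 ((det_iff (hS M hM).1).1 (hS M hM).2)
    · have hp' : p ∈ classPrimes (168 * M.natAbs) c W h N :=
        classPrimes_mono (Nat.mul_dvd_mul_left 168 hdvd) h N hp
      obtain ⟨g1, -, g3⟩ := cluster_par (hS M hM).1
        (hcop.coprime_dvd_right (Nat.mul_dvd_mul_left 168 hdvd)) (Or.inl hc8) hc7 hh0 hinj hW hp' hJ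
        (Or.inr ⟨hc8, hsq M hM⟩) (fun i => if 8 ∣ Pool.Agent.Y687.NN 1 i then 0 else 1)
      refine Pool.Agent.Y687.MQ.WB_D g1 ?_
      have h1 := (det_iff (hS M hM).1).1 (hS M hM).2
      rw [det_R] at h1 ⊢
      rw [g3]
      exact h1
  have hE : ∀ M ∈ S, (∃ F : ℂ → ℂ, Pool.Agent.Y19.QT.IsLFunK K (5805 * M ^ 2) (-285714 * M ^ 3)
      (∏ i, discs W h p i) F ∧ F 1 ≠ 0) ∧ Finite (E K M).toAffine.Point := by
    intro M hM
    exact hfield M (hS M hM).1.1.ne_zero (hWB M hM)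
  have hfin : ∀ M ∈ S, Finite (E K M).toAffine.Point := fun M hM => (hE M hM).2
  have hdim : dimension K S = 0 := by
    unfold dimension
    refine Finset.sum_eq_zero fun M hM => ?_
    have := hfin M hM
    rw [Module.finrank_eq_zero_iff_isTorsion]
    intro y
    obtain ⟨l, hl, hy⟩ := isOfFinAddOrder_iff_nsmul_eq_zero.1 (isOfFinAddOrder_of_finite y)
    refine ⟨⟨(l : ℤ), mem_nonZeroDivisors_of_ne_zero (by exact_mod_cast hl.ne')⟩, ?_⟩
    show (l : ℤ) • y = 0
    rw [natCast_zsmul]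
    exact hy
  choose! F hF hF1 using fun M hM => (hE M hM).1
  have hL : IsL K (∏ i, discs W h p i) S (fun s => ∏ M ∈ S, F M s) := by
    refine ⟨Differentiable.fun_finsetProd fun M hM => (hF M hM).1, fun s hs => ?_⟩
    exact hasProd_prod fun M hM => (hF M hM).2 s hs
  refine ⟨hdeg, hfin, hdim, ⟨_, hL⟩, fun G hG => ?_⟩
  have hG1 : G 1 ≠ 0 := by
    rw [isL_unique hG hL]
    exact Finset.prod_ne_zero_iff.2 hF1
  refine ⟨hG1, ?_⟩
  rw [hdim]
  exact analyticOrderAt_eq_zero.2 (Or.inr hG1)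

/-- **Main theorem.** The Beilinson–Bloch conjecture for `i = 1`, with order and dimension zero, for
`∏_{M ∈ S} E_M` over the multiquadratic fields of clusters of primes, for almost all the
configurations of the primes in a Bohr set. -/
theorem result (k : ℕ) (η : ℝ) (hη : 0 < η) :
    ∃ (z d C X₀ : ℕ) (ρ b : ℝ), 0 < ρ ∧ 0 < b ∧
      ∀ S : Finset ℤ, (∀ M ∈ S, Adm M ∧ RankZeroShaTwo M) →
        ∀ c : ℕ, Nat.Coprime c (168 * ∏ M ∈ S, M.natAbs) → c % 8 = 3 →
        (c % 7 = 3 ∨ c % 7 = 5 ∨ c % 7 = 6) →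
        (∀ M ∈ S, ∀ l : ℕ, l.Prime → (l : ℤ) ∣ M → l % 8 = 1 → IsSquare (c : ZMod l)) →
        ∀ X : ℕ, X₀ ≤ X → ∃ (θ : Fin d → ℝ) (H : Finset (Fin k → ℤ)),
          b * X ≤ ((bohrSet θ ρ X).ncard : ℝ) ∧
          (∀ h ∈ H, (∀ i, h i ∈ bohrSet θ ρ X ∧ h i ≠ 0) ∧ Function.Injective h) ∧
          (1 - η) * ((bohrSet θ ρ X).ncard : ℝ) ^ k ≤ (H.card : ℝ) ∧
          ∃ᶠ N : ℕ in atTop, ∀ h ∈ H, (N : ℝ) / (Real.log N) ^ C ≤
            ((goodPrimes S (168 * ∏ M ∈ S, M.natAbs) c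
              (168 * (∏ M ∈ S, M.natAbs) * z.factorial) h N).ncard : ℝ) := by
  obtain ⟨z, d, C, X₀, ρ, b, hρ, hb, hS⟩ := bohrAPU k η hη
  refine ⟨z, d, C, X₀, ρ, b, hρ, hb, fun S hSS c hc hc8 hc7 hsq X hX => ?_⟩
  have hP : 0 < ∏ M ∈ S, M.natAbs :=
    Finset.prod_pos fun M hM => Int.natAbs_pos.2 (hSS M hM).1.1.ne_zero
  obtain ⟨θ, H, h1, h2, h3, h4⟩ := hS (168 * ∏ M ∈ S, M.natAbs) (by omega) c hc X hX
  refine ⟨θ, H, h1, h2, h3, h4.mono fun N hN h hh => (hN h hh).trans ?_⟩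
  rw [Nat.cast_le]
  refine Set.ncard_le_ncard (classPrimes_sub hSS hc hc8 hc7 hsq (fun i => ((h2 h hh).1 i).2)
    (h2 h hh).2 (Nat.mul_pos (by omega) z.factorial_pos) N) ((Set.finite_Iic N).subset fun p hp => hp.1)

end Pool.Agent.Results.MP_0b9e0b_ag.ClustersOfTwists
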