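import Mathlib
import Pool.Agent.V1168.EV.Bloch
import Pool.Agent.V1168.EV.Rel

/-!
# The formula of Beilinson and Bloch for the products of all varieties over function fields with constant
abelian varieties outside of finitely many lines of slope vectors

Let `K i` (`i` in a finite set) be CM fields with pair flips (`PairFlips`): for any two complex
embeddings `φ` of `K i` and `ψ` of `K k` (with `i = k` or not) which are neither equal nor complex
conjugate, some automorphism of `ℂ` is the identity on `φ (K i)` and the complex conjugation on
`ψ (K k)`. One CM field `K` of degree `2 g` has this property if the Galois group of its normal closure
is the largest possible one (of order `2 ^ g g!`), or contains, for each pair of complex conjugate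
embeddings, an element which exchanges them and fixes all other embeddings, or contains all the
automorphisms that exchange two pairs in this sense (`g > 2`); several such fields with linearly
disjoint normal closures have it together. We fix an isomorphism `ν` of the algebraic closure of `ℚ_p`
with `ℂ`; it defines a `p`-adic valuation `v` of `ℂ` with `v p = 1`. The slope vector of a Weil number
`π` for `p ^ a` in `K i` is the function `2 v (φ π) - a` on the complex embeddings `φ` of `K i`
(`slopeVector`); it is odd: its values at conjugate embeddings are opposite.

Let `π i` be Weil numbers for `q = p ^ a` in `K i` with nonzero slope vectors, and let `f i` be monic
polynomials whose complex roots are conjugates of `π i` (`IsPolyOf`), for instance the characteristic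
polynomials of Frobenius of the abelian varieties in the isogeny classes of the `π i` over the field
with `q` elements. Let `A` be an abelian variety over the field with `Q = q ^ s` elements which is
isogenous to a product of powers of abelian varieties coming from the field with `q` elements, with
characteristic polynomials `f i` (`IsAbelian`).

Let `k` be the function field of a smooth projective geometrically connected curve over the field
with `Q` elements, and let `Y` be **any** smooth projective variety over `k` (not constant; nothing is
supposed about the conjectures of Tate and Beilinson), whose absolute Frobenius endomorphism satisfies a
nonzero rational polynomial on each group `CH^i(A × Y)` (for instance `Y` is the generic fibre of a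
smooth projective variety over the finite field whose motive is finite-dimensional in the sense of
Kimura and O'Sullivan: of a surface dominated by a product of curves, for example).
A number `ρ` comes from the finite set `Ω` of complex numbers (`From p Ω`) if it is not zero and a power
of it is the product of a power of a conjugate of an element of `Ω`, or of `1`, and of a power of `p`.
Let `Ω` be a finite set such that the roots of these polynomials come from `Ω`, and such that `Q^s`
comes from `Ω` for all zeros and poles `s` of the `L`-functions of the groups `H^b(Y)` (`VarietyFrom`).
**There is no other condition on these numbers**: by Grothendieck the `L`-functions are rational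
functions of `Q^(-s)`, so that a finite set `Ω` always exists.

**The theorem: there is a set `E` of at most `|Ω|` lines, each of them in the space of the functions on
the complex embeddings of one of the fields `K i`, such that for all `a`, all `π i` whose slope vectors
are not on the lines in `E`, all `f i`, `s`, `A` and all `Y` as above, the formula of Beilinson and Bloch for `A × Y` is equivalent to the one for `Y`:** The lines depend only
on `ν`, the fields and `Ω`, and not on the Weil numbers, on the powers of the abelian varieties, on the
finite field or on `Y`. So for one field `K` and a given `Y` all the Weil numbers in `K` are
allowed, except those whose slope vector is a multiple of one of at most `|Ω|` vectors in the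
`g`-dimensional space of the odd functions; for instance, at most `2 |Ω|` of the `2 ^ g` slope types of
the ordinary abelian varieties with complex multiplication by `K` are exceptional for `Y`. (Exceptions
to the Künneth formula behind the theorem are necessary: if `Y = A` then there are divisor classes in
`H^1(A) ⊗ H^1(Y)`.)

The results of the starting files of this kind, and my `AllCMTypesTimes`, are about varieties `Y` whose
Frobenius eigenvalues are unrelated to the fields `K i` or have small slopes. **Here the Frobenius
eigenvalues of `Y` are arbitrary**: they may generate the same fields `K i`, or fields containing them.

There are products `D t` of `c t` divisor classes on `A`, finitely many (independent of `Y`), such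
that

1. every class in `CH^i(A × Y)_0` is in a unique way the sum of the products of the `D t` with classes
   in `CH^(i - c t)(Y)_0`;
2. the order at `s = i` of the `L`-function of `H^(2 i - 1)(A × Y)` is the sum over `t` of the orders at
   `s = i - c t` of the `L`-functions of `H^(2 (i - c t) - 1)(Y)`;
3. **the formula of Beilinson and Bloch (the rank of `CH^i_0` is the order at `s = i` of the
   `L`-function of `H^(2 i - 1)`) holds for `A × Y` in all codimensions `i ≤ n` if and only if it holds
   for `Y` in all codimensions `i ≤ n`, for all `n`.**

For instance, let `Y` be an elliptic curve over `k` for which the conjecture of Birch and
Swinnerton-Dyer is known, with a surface as above: then the formula holds for `A × Y` in all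
codimensions for all `A` whose slope vectors are outside of finitely many lines.

The framework: the Chow ring and the ring of correspondences of `A`, with rational coefficients, and
the cohomology of `A` with complex coefficients (we choose an isomorphism of the algebraic closure of
`ℚ_ℓ` with `ℂ`), with the formal properties and the theorems of Tate on divisors and of Kimura on the
nilpotence of homologically trivial correspondences (`AbelianData`, `IsAbelian`); the groups
`T^(2 i)(Y, i) = CH^i(Y)` and `T^(2 i)(A × Y, i) = CH^i(A × Y)` with rational coefficients, with the
products with classes on `A`, the push-forward from `A × Y` to `Y`, the operation of the
correspondences from `A` to `A`, the absolute Frobenius endomorphism of `Y` and the cycle class map `ρ`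
to the `ℓ`-adic cohomology `R` over the separable closure of `k` (`RelData`, `IsRel`, `Regulator`,
`IsRegulator`); the absolute Frobenius endomorphism of `A × Y` acts on `CH^i(A × Y)` as multiplication
by `Q ^ i` (`PureChow`). The local factors are given by the places of `k`, their degrees and the
spaces `H^b(Y)^{I_v}` with the geometric Frobenius (`LocalData`); as `A` is constant the space of
invariants of the inertia group in `H^n(A × Y)` is the sum of the `H^a(A) ⊗ H^(n - a)(Y)^{I_v}`
(`factorM`; `H^a(A) = (H^1)^a`: `CohData`, `IsCoh`). `IsContinuation` says that `Λ` is a meromorphic
continuation of the Euler product, and the order of the `L`-function at `s = i` is the one of any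
such `Λ`.

The proof. Let `x i` be the slope vectors of the `π i`, and let `ρ` be a number that comes from
`β ∈ Ω`. If a product of `ρ` and of roots of the `f i`, no two of them complex conjugate, is a power of
`q` up to a root of unity, then, computing valuations, there are odd functions `n i`, not all zero, and
constants with `∑ n i φ * x i (σ φ) = c₁ v (σ β) + c₂` for all automorphisms `σ` of `ℂ` (the sum over all `i`
and all embeddings `φ`; the automorphism in the definition of `From` is absorbed by `n`). Take the odd
part, and average over the automorphisms which fix a given embedding `φ₀` of `K i`: by the pair flips
the average of an odd function is zero except at `φ₀` and its conjugate, so that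
`n i (σ⁻¹ φ₀) * x i φ₀` is determined by `c₁` and `β` (`EV.key`). For `β = 1` all these numbers are
zero, and there are no relations, as `x i` is not zero. In general it follows that, for each `i` with `n i` not zero, `x i` is
determined up to a factor by `β`: this is the exceptional line of `β` (`EV.exists_lines`). (The odd
functions on the embeddings of the `K i` are absolutely irreducible representations, not isomorphic
for different `i`.) Hence there are no such relations outside of the lines (`EV.exactPair_of`).
If a Weil number `α` of the cohomology of `A` and a number `ρ` from `Ω` have the product `Q ^ i`, then
`α = Q ^ k` and `α` is a product of pairs of complex conjugate numbers, so that the eigenvectors of the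
Frobenius endomorphism of `A` for `α` are products of divisor classes. The `L`-function of
`H^a(A) ⊗ H^b(Y)` is the product of the translates of the one of `H^b(Y)` by the logarithms of the
eigenvalues `α`; a translate has a zero or a pole at `s = i` only if `Q ^ i / α` comes from `Ω`, so that
`α = Q ^ k`, and the multiplicity of `Q ^ k` is the number of the `t` with `c t = k` (the `D t` have a
dual system `E t` for the intersection pairing). For the Chow groups, let `p` be the projector given
by the `D t`, `E t`. For a suitable polynomial `P` the correspondence `(1 - p) P (F)` is homologically
trivial, hence nilpotent, and `P (F)` is invertible on `CH^i(A × Y)`. So `p` acts as the identity. The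
system of equations between the ranks and the orders is triangular, with a nonzero diagonal, whence
(3) (`EV.beilinsonBlochTimes`).
-/

set_option autoImplicit false

namespace Pool.Agent.Results.MP_0b9e0b_ag.EveryVarietyTimes

open NumberField Pool.Agent.V1168.EV

/-- **For every variety `Y` over a function field with Frobenius numbers from the finite set `Ω`, and all
constant abelian varieties `A` whose slope vectors are outside of at most `|Ω|` lines, the formula of
Beilinson and Bloch holds for `A × Y` in the codimensions up to `n` if and only if it does for `Y`.** -/
theorem result {p : ℕ} [Fact p.Prime] (ν : PadicAlgCl p ≃+* ℂ) {I : Type} [Finite I]
    (K : I → Type) [∀ i, Field (K i)] [∀ i, NumberField (K i)] [∀ i, IsCMField (K i)]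
    (hK : PairFlips K) (Ω : Finset ℂ) :
    ∃ E : Finset (Σ i, ((K i →+* ℂ) → ℝ)), E.card ≤ Ω.card ∧
      ForAllOutside ν K (BeilinsonBlochTimes p Ω) E := by
  obtain ⟨E, hE, h⟩ := exists_lines_forall ν K hK Ω
  exact ⟨E, hE, h _ fun q f hq hR => beilinsonBlochTimes hq hR⟩

end Pool.Agent.Results.MP_0b9e0b_ag.EveryVarietyTimes
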