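import Pool.Agent.V11291.RG.Fac

/-!
# The Beilinson–Bloch conjecture for products of twists over arbitrary multiquadratic fields:
# exact proportions

`E` is the modular curve `X_0(14)`, an elliptic curve without complex multiplication with one rational
point of order two, and `E_M` is its quadratic twist by `M`.  The class `Adm` consists of the squarefree
integers, positive or negative, `1` modulo `4`, squares modulo `7`, whose prime divisors split
completely in `ℚ(i, √2, √-7)` or are inert in `ℚ(√2)` and in `ℚ(√-7)`, and are inert in the cyclotomic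
`ℤ₃`-extension of `ℚ`.

Let `S` be any finite subset of the class, independent modulo squares, `k = ℚ(√d : d ∈ S)` (so `k` can
be any of these fields; nothing is assumed about `E` over `k`), and let `B` be any finite subset of the
class whose elements are different modulo squares and the products of elements of `S`.  For `D` in the
class we consider the abelian variety `X_D = ∏_{b ∈ B} E_{b D}` over `k`, of dimension `#B`, where `b D`
is replaced by its squarefree part.

For an exact proportion `c^(#B 2^#S)` of the `D`, `c = ∏_{i ≥ 0} (1 - 2^{-(2 i + 1)}) = 0.419...`, the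
`#B 2^#S` twists of `E` by the squarefree parts of the products `D b ∏_{d ∈ U} d`, `b ∈ B`, `U ⊆ S`, have
rank zero and `Ш[2] = 0` (over `ℚ`, and over all the layers of the cyclotomic `ℤ₃`-extension).  For these
`D` the conjecture holds for `i = 1` and `X = X_D` over `k`: the `L`-function of `H¹(X_D)` is entire, its
order at `s = 1` is zero, and `CH¹(X_D)_0`, which is the group of the `k`-rational points of the dual
abelian variety, tensored with `ℚ`, is zero.  Moreover the 2-primary part of the Tate-Shafarevich group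
of each factor over `k` is killed by `2^#S`.
-/

set_option autoImplicit false

open NumberField IsDedekindDomain Filter Topology

namespace Pool.Agent.Results.MP_0b9e0b_ag.MultiquadraticProducts

open scoped Classical

open Pool.Agent.TH841.NF.D (Sha)

open Pool.Agent.Results.MP_787500_nt.LayersBlochKatoLaw (E base factor rank twist multiquadratic
  Adm Small count cc Proportion Many adm_iff mat_eq small_iff)

/-- `S` is a subset of the class, independent modulo squares. -/
def IsBase (S : Finset ℤ) : Prop := (∀ d ∈ S, Adm d) ∧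
  ∀ T ⊆ S, T.Nonempty → ¬ IsSquare (∏ d ∈ T, d)

/-- `B` is a subset of the class, and its elements are different modulo squares and products of elements
of `S`. -/
def IsFamily (B S : Finset ℤ) : Prop := (∀ b ∈ B, Adm b) ∧
  ∀ b ∈ B, ∀ b' ∈ B, b ≠ b' → ∀ T ⊆ S, ¬ IsSquare (b * b' * ∏ d ∈ T, d)

/-- `T` is the set of the squarefree parts of the products `b D`, `b ∈ B`. -/
def IsTwists (B : Finset ℤ) (D : ℤ) (T : Finset ℤ) : Prop :=
  ∀ M : ℤ, M ∈ T ↔ Adm M ∧ ∃ b ∈ B, ∃ k : ℤ, D * b = M * k ^ 2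

/-- For the squarefree parts `D'` of the products `D b ∏_{d ∈ U} d`, `b ∈ B`, `U ⊆ S`, the rank of
`E_{D'}` is zero and `Ш(E_{D'})[2] = 0`, over all the layers of the cyclotomic `ℤ₃`-extension of `ℚ`. -/
def Criterion (B S : Finset ℤ) (D : ℤ) : Prop :=
  ∀ b ∈ B, ∀ U ⊆ S, ∀ D' k : ℤ, Adm D' → D * (b * ∏ d ∈ U, d) = D' * k ^ 2 → Small D'

section

variable (K : Type) [Field K] [NumberField K]

/-- The Euler factor at `v` of the `L`-function of `H¹(X)`, `X = ∏_{M ∈ T} E_M`, over `K`; for each `M` the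
places that divide `42 M N` are left out. -/
noncomputable def factorX (T : Finset ℤ) (N : ℤ) (s : ℂ) (v : HeightOneSpectrum (𝓞 K)) : ℂ :=
  ∏ M ∈ T, if ((42 * M * N : ℤ) : 𝓞 K) ∈ v.asIdeal then 1 else factor (K := K) (twist M) s v

/-- The dimension of `CH¹(X)_0` for `X = ∏_{M ∈ T} E_M` over `K`: the rank of `X(K)`. -/
noncomputable def dimension (T : Finset ℤ) : ℕ := ∑ M ∈ T, rank K (twist M)

/-- The conjecture for `X = ∏_{M ∈ T} E_M` over `K` and `i = 1`: the `L`-function of `H¹(X)` (without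
finitely many Euler factors) is entire and its order at `s = 1` is the dimension of `CH¹(X)_0`. -/
def BeilinsonBloch (T : Finset ℤ) (N : ℤ) : Prop :=
  ∃ L : ℂ → ℂ, Differentiable ℂ L ∧
    (∀ s : ℂ, 3 / 2 < s.re → HasProd (factorX K T N s) (L s)) ∧
    analyticOrderAt L 1 = dimension K T

end

/-- The conjecture holds for `X = ∏_{M ∈ T} E_M` over `k = ℚ(√d : d ∈ S)` and `i = 1`, with order and
dimension zero, and the 2-primary parts of the `Ш(E_M/k)` are killed by `2^#S`. -/
def Holds (S T : Finset ℤ) : Prop :=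
  ∀ (k : IntermediateField ℚ ℂ) [NumberField k], k = multiquadratic S →
    Module.finrank ℚ k = 2 ^ S.card ∧ BeilinsonBloch k T (∏ d ∈ S, d) ∧ dimension k T = 0 ∧
    ∀ M ∈ T, ∀ (j : ℕ) (y : Sha (base (twist M) k)), 2 ^ j • y = 0 → 2 ^ S.card • y = 0

lemma cl_iff (D : ℤ) : Adm D ↔ Pool.Agent.V11291.RG.Cl D := adm_iff D

lemma crit_ex {B S : Finset ℤ} (hB : ∀ b ∈ B, Adm b) (hS : ∀ d ∈ S, Adm d) {D : ℤ} (hD : Adm D) :
    Criterion B S D ↔ Pool.Agent.V11291.RG.ExB B S D := by
  have key : ∀ b ∈ B, ∀ T ⊆ S, ∀ D' k : ℤ, Pool.Agent.Y687.MQ.AdmD D' →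
      D * (b * ∏ d ∈ T, d) = D' * k ^ 2 → Adm D' := by
    intro b hb T hT D' k hD' h
    refine (adm_iff D').2 ⟨hD', fun p hp hpd => ?_⟩
    have h1 : (p : ℤ) ∣ D * (b * ∏ d ∈ T, d) := by
      rw [h]
      exact Dvd.dvd.mul_right hpd _
    rcases (Nat.prime_iff_prime_int.1 hp).dvd_or_dvd h1 with h2 | h2
    · exact ((adm_iff D).1 hD).2 p hp h2
    · rcases (Nat.prime_iff_prime_int.1 hp).dvd_or_dvd h2 with h2 | h2
      · exact ((adm_iff b).1 (hB b hb)).2 p hp h2
      · obtain ⟨d, hd, hd'⟩ := (Nat.prime_iff_prime_int.1 hp).exists_mem_finset_dvd h2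
        exact ((adm_iff d).1 (hS d (hT hd))).2 p hp hd'
  constructor
  · intro h b hb T hT D' k h1 h2
    have h3 := key b hb T hT D' k h1 h2
    have h4 := (small_iff D' h3).1 (h b hb T hT D' k h3 h2)
    rwa [mat_eq D' h3] at h4
  · intro h b hb T hT D' k h1 h2
    rw [small_iff D' h1, mat_eq D' h1]
    exact h b hb T hT D' k ((adm_iff D').1 h1).1 h2

/-- the squarefree parts -/
lemma exists_twists {B S : Finset ℤ} (hB : IsFamily B S) {D : ℤ} (hD : Adm D) :
    ∃ T : Finset ℤ, IsTwists B D T ∧ T.card = B.card := by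
  have hp : ∀ b : ℤ, b ∈ B → ∃ C k : ℤ, Adm C ∧ k ≠ 0 ∧ D * b = C * k ^ 2 := by
    intro b hb
    obtain ⟨C, k, h1, h2, h3, h4, -⟩ := Pool.Agent.Y682.YS.mulD ((adm_iff D).1 hD).1
      ((adm_iff D).1 hD).2 ((adm_iff b).1 (hB.1 b hb)).1 ((adm_iff b).1 (hB.1 b hb)).2
    exact ⟨C, k, (adm_iff C).2 ⟨h1, h2⟩, h3, h4⟩
  choose! f g h1 h2 h3 using hp
  refine ⟨B.image f, fun M => ?_, ?_⟩
  · rw [Finset.mem_image]
    constructor
    · rintro ⟨b, hb, rfl⟩
      exact ⟨h1 b hb, b, hb, g b, h3 b hb⟩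
    · rintro ⟨hM, b, hb, k, hk⟩
      refine ⟨b, hb, ?_⟩
      refine Pool.Agent.V11291.JH.sq_uniq ((adm_iff _).1 (h1 b hb)).1 ((adm_iff _).1 hM).1 (h2 b hb)
        (y := k) ?_
      rw [← h3 b hb, hk]
  · refine Finset.card_image_of_injOn ?_
    intro b hb b' hb' hbb
    by_contra hne
    refine hB.2 b hb b' hb' hne ∅ (Finset.empty_subset _) ?_
    rw [Finset.prod_empty, mul_one]
    have e1 := h3 b hb
    have e2 := h3 b' hb'
    have hbb' : f b = f b' := hbb
    have hD0 : D ≠ 0 := ((adm_iff D).1 hD).1.1.ne_zero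
    refine Pool.Agent.V11291.RG.sq_div hD0 ⟨f b' * g b * g b', ?_⟩
    have e3 : b * b' * D ^ 2 = (D * b) * (D * b') := by ring
    rw [e3, e1, e2, hbb']
    ring

theorem holds_of {B S : Finset ℤ} (hS : IsBase S) (hB : IsFamily B S) {D : ℤ} (hD : Adm D)
    (hc : Criterion B S D) {T : Finset ℤ} (hT : IsTwists B D T) : Holds S T := by
  intro k _ hk
  have hex := (crit_ex hB.1 hS.1 hD).1 hc
  have hS' : ∀ d ∈ S, Pool.Agent.V11291.RG.Cl d := fun d hd => (cl_iff d).1 (hS.1 d hd)
  have hM : ∀ M ∈ T, Adm M ∧ ∀ U ⊆ S, ∃ C j : ℤ, Pool.Agent.Y687.MQ.AdmD C ∧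
      Pool.Agent.Y682.YQ.H9 C ∧ (Pool.Agent.Y687.MQ.matD C).det ≠ 0 ∧ j ≠ 0 ∧
      M * ∏ d ∈ U, d = C * j ^ 2 := by
    intro M hMT
    obtain ⟨h1, b, hb, x, hx⟩ := (hT M).1 hMT
    refine ⟨h1, fun U hU => ?_⟩
    obtain ⟨C₁, j₁, g1, g2, g3, g4⟩ := Pool.Agent.V11291.JH.prodS (S := U)
      fun d hd => ⟨(hS' d (hU hd)).1, (hS' d (hU hd)).2⟩
    obtain ⟨C, j, k1, k2, k3, k4, -⟩ := Pool.Agent.Y682.YS.mulD ((adm_iff M).1 h1).1
      ((adm_iff M).1 h1).2 g1 g2
    have e1 : M * ∏ d ∈ U, d = C * (j * j₁) ^ 2 := by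
      rw [g4, ← mul_assoc, k4]
      ring
    refine ⟨C, j * j₁, k1, k2, hex b hb U hU C (x * (j * j₁)) k1 ?_, mul_ne_zero k3 g3, e1⟩
    rw [← mul_assoc, hx]
    have e2 : M * x ^ 2 * ∏ d ∈ U, d = (M * ∏ d ∈ U, d) * x ^ 2 := by ring
    rw [e2, e1]
    ring
  -- the degree
  have hfd : FiniteDimensional ℚ (Pool.Agent.Y682.XD.mq S) :=
    (Pool.Agent.V11291.RG.rr_sub S fun d hd => (hS' d hd).1.1.ne_zero).1
  have hN : NumberField (Pool.Agent.Y682.XD.mq S) :=
    { to_charZero := inferInstance, to_finiteDimensional := hfd }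
  obtain ⟨d, hinj, himg⟩ := Pool.Agent.V11291.RG.enum S
  have hdS : ∀ i, d i ∈ S := fun i => by
    have h := Finset.mem_image_of_mem d (Finset.mem_univ i)
    rwa [himg] at h
  have hdeg : Module.finrank ℚ k = 2 ^ S.card :=
    Pool.Agent.V11291.JH.finrank_mq d (fun i => (hS' _ (hdS i)).1.1.ne_zero)
      (Pool.Agent.V11291.RG.ind_of hinj himg hS.2) k (hk.trans (Pool.Agent.V11291.RG.mq_eq himg))
  -- the rank
  have hrank : ∀ M ∈ T, rank k (twist M) = 0 := by
    intro M hMT
    obtain ⟨h1, h2⟩ := hM M hMT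
    have h12 := (Pool.Agent.Y682.XF.trans_D k h1.2.1).1
    refine h12.trans ?_
    refine (Pool.Agent.V11291.RG.rr_sub S fun d hd => (hS' d hd).1.1.ne_zero).2 k hk M
      ((adm_iff M).1 h1).1.1.ne_zero fun U hU => ?_
    obtain ⟨C, j, g1, -, g3, g4, g5⟩ := h2 U hU
    rw [g5]
    exact Pool.Agent.V11291.RG.rr_good g1 g3 g4
  have hdim : dimension k T = 0 := Finset.sum_eq_zero hrank
  refine ⟨hdeg, ?_, hdim, ?_⟩
  · have hL : ∀ M : ℤ, M ∈ T → ∃ Φ : ℂ → ℂ,
        Pool.Agent.Y19.QT.IsLFunK k (5805 * M ^ 2) (-285714 * M ^ 3) (∏ d ∈ S, d) Φ ∧ Φ 1 ≠ 0 := by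
      intro M hMT
      refine Pool.Agent.V11291.RG.lf_mq hS.2 (fun U hU => ?_) k hk
      obtain ⟨C, j, g1, -, g3, g4, g5⟩ := (hM M hMT).2 U hU
      exact ⟨C, j, g1, g3, g4, g5⟩
    choose! Φ hΦ hΦ1 using hL
    refine ⟨fun s => ∏ M ∈ T, Φ M s, Differentiable.fun_finsetProd fun M hM => (hΦ M hM).1,
      fun s hs => ?_, ?_⟩
    · unfold factorX
      refine hasProd_prod fun M hMT => ?_
      refine ((hΦ M hMT).2 s hs).congr_fun fun v => ?_
      exact (Pool.Agent.V11291.RG.fac_eq (hM M hMT).1.2.1 _ s v).symm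
    · rw [hdim, Nat.cast_zero]
      refine ((Differentiable.fun_finsetProd fun M hM =>
        (hΦ M hM).1).analyticAt 1).analyticOrderAt_eq_zero.2 ?_
      exact Finset.prod_ne_zero_iff.2 hΦ1
  · intro M hMT
    obtain ⟨h1, h2⟩ := hM M hMT
    have hbot : NumberField (⊥ : IntermediateField ℚ ℂ) :=
      { to_charZero := inferInstance, to_finiteDimensional := inferInstance }
    refine Pool.Agent.V11291.RG.sha_CD d (fun i => (hS' _ (hdS i)).1.1.ne_zero) h1.2.1 (fun U => ?_) 0
      (⊥ : IntermediateField ℚ ℂ) bot_le ?_ (Pool.Agent.Y682.XD.mq S) k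
      (Pool.Agent.V11291.RG.mq_eq himg) ?_
    · obtain ⟨C, j, g1, g2, g3, g4, g5⟩ := h2 (U.image d) (by
        intro x hx
        obtain ⟨i, -, rfl⟩ := Finset.mem_image.1 hx
        exact hdS i)
      rw [Finset.prod_image fun i _ j _ h => hinj h] at g5
      exact ⟨C, j, g1, g2, g3, g4, g5⟩
    · rw [IntermediateField.finrank_bot]
      exact odd_one
    · rw [sup_bot_eq]
      exact hk

/-- **Main theorem.**  `S` is a finite subset of the class, independent modulo squares, and `B` is a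
finite subset of the class whose elements are different modulo squares and products of elements of `S`.
(1) For each `D` of the class the set `T` of the squarefree parts of the products `b D`, `b ∈ B`, has
`#B` elements.  If `Criterion B S D` holds, then the conjecture holds for `i = 1` and the abelian variety
`X_D = ∏_{M ∈ T} E_M` of dimension `#B` over `k = ℚ(√d : d ∈ S)`, a field of degree `2^#S`, with order and
dimension zero, and the 2-primary parts of the `Ш(E_M/k)` are killed by `2^#S`.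
(2) The proportion of the `D` with `Criterion B S D` is exactly `c^(#B 2^#S)`, among the positive `D` of
the class, ordered by absolute value, and also among the negative ones; `0.4194 < c < 0.4195`.  The
number of the `D` of the class of a given sign with `|D| ≤ X` is at least a positive constant times
`X (log X)^(-3/4)`. -/
theorem result :
    (∀ S B : Finset ℤ, IsBase S → IsFamily B S → ∀ D : ℤ, Adm D →
      ∃ T : Finset ℤ, IsTwists B D T ∧ T.card = B.card ∧ (Criterion B S D → Holds S T)) ∧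
    (∀ s : ℤ, (s = 1 ∨ s = -1) → Many s ∧ ∀ S B : Finset ℤ, IsBase S → IsFamily B S →
      Proportion (Criterion B S) s (cc ^ (B.card * 2 ^ S.card))) ∧
    (0.4194 < cc ∧ cc < 0.4195) := by
  refine ⟨fun S B hS hB D hD => ?_, fun s hs =>
    ⟨(Pool.Agent.Results.MP_787500_nt.LayersBlochKatoLaw.result.2.2.1 s hs).1, fun S B hS hB => ?_⟩,
    Pool.Agent.Y948.CQ.t_C2.2.2.2⟩
  · obtain ⟨T, h1, h2⟩ := exists_twists hB hD
    exact ⟨T, h1, h2, fun hc => holds_of hS hB hD hc h1⟩
  · have h := Pool.Agent.V11291.RG.prop_ex (B := B) (S := S) hs (fun b hb => (cl_iff b).1 (hB.1 b hb))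
      (fun d hd => (cl_iff d).1 (hS.1 d hd)) hS.2 hB.2
    refine h.congr fun X => ?_
    have e1 : Pool.Agent.Y682.YQ.CA.count (fun D => Pool.Agent.Y687.MQ.AdmD D ∧ 0 < s * D ∧
        (Pool.Agent.Y682.YQ.H9 D ∧ Pool.Agent.V11291.RG.ExB B S D)) X =
        count (fun D => Adm D ∧ 0 < s * D ∧ Criterion B S D) X := by
      unfold Pool.Agent.Y682.YQ.CA.count count
      refine Nat.card_congr (Equiv.subtypeEquivRight fun D => ?_)
      show (|D| ≤ (X : ℤ) ∧ (Pool.Agent.Y687.MQ.AdmD D ∧ 0 < s * D ∧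
        (Pool.Agent.Y682.YQ.H9 D ∧ Pool.Agent.V11291.RG.ExB B S D))) ↔
          (|D| ≤ (X : ℤ) ∧ (Adm D ∧ 0 < s * D ∧ Criterion B S D))
      constructor
      · rintro ⟨g1, g2, g3, g4, g5⟩
        have hD := (adm_iff D).2 ⟨g2, g4⟩
        exact ⟨g1, hD, g3, (crit_ex hB.1 hS.1 hD).2 g5⟩
      · rintro ⟨g1, g2, g3, g5⟩
        exact ⟨g1, ((adm_iff D).1 g2).1, g3, ((adm_iff D).1 g2).2, (crit_ex hB.1 hS.1 g2).1 g5⟩
    have e2 : Pool.Agent.Y682.YQ.CA.count (fun D => Pool.Agent.Y687.MQ.AdmD D ∧ 0 < s * D ∧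
        Pool.Agent.Y682.YQ.H9 D) X = count (fun D => Adm D ∧ 0 < s * D) X := by
      unfold Pool.Agent.Y682.YQ.CA.count count
      refine Nat.card_congr (Equiv.subtypeEquivRight fun D => ?_)
      show (|D| ≤ (X : ℤ) ∧ (Pool.Agent.Y687.MQ.AdmD D ∧ 0 < s * D ∧ Pool.Agent.Y682.YQ.H9 D)) ↔
        (|D| ≤ (X : ℤ) ∧ (Adm D ∧ 0 < s * D))
      rw [adm_iff D]
      tauto
    rw [e1, e2]

end Pool.Agent.Results.MP_0b9e0b_ag.MultiquadraticProducts
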